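import Pool.Agent.H86.Gap.Stair

set_option autoImplicit false

open MvPolynomial

namespace Pool.Agent.H86.Gap

open Pool.Agent.H70.TP

variable {N : ℕ}

/-- the bracket of `θ` vanishes on all pairs of words of length at most `l`. -/
def Z {r : ℕ} (θ : V N r) (l : ℕ) : Prop :=
  ∀ f g : List (Fin N), f.length ≤ l → g.length ≤ l → Bl θ (cg f) (cg g) ∈ comm (FA N)

lemma boot_step {r : ℕ} (hr : 1 ≤ r) (θ : V N r) (k : ℕ) (hk1 : 1 ≤ k)
    (hk : r + 8 * k + 8 ≤ N ^ k) (h : Z θ (4 * k + 1)) : Z θ (4 * (k + 1) + 1) := by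
  have : NeZero k := ⟨by omega⟩
  intro f g hf hg
  have hall := generic_rank k θ (fun f' g' hf' hg' => tr_comm (h f' g' hf' hg')) f g
  exact mem_comm_of_level (by omega) (by omega) (Bl_mem_L θ (cg_mem_L f) (cg_mem_L g)) hall

lemma boot (hN : 2 ≤ N) {r : ℕ} (hr : 1 ≤ r) (θ : V N r) (k : ℕ) (hk1 : 1 ≤ k)
    (hk : r + 8 * k + 8 ≤ N ^ k) (h : Z θ (4 * k + 1)) (f g : List (Fin N)) :
    Bl θ (cg f) (cg g) ∈ comm (FA N) := by
  have hall : ∀ j : ℕ, r + 8 * (k + j) + 8 ≤ N ^ (k + j) ∧ Z θ (4 * (k + j) + 1) := by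
    intro j
    induction j with
    | zero => exact ⟨hk, h⟩
    | succ j ih =>
      obtain ⟨h1, h2⟩ := ih
      refine ⟨?_, ?_⟩
      · rw [← add_assoc, pow_succ]
        have h3 : N ^ (k + j) * 2 ≤ N ^ (k + j) * N := Nat.mul_le_mul_left _ hN
        omega
      · rw [← add_assoc]
        exact boot_step hr θ (k + j) (by omega) h1 h2
  have h2 := (hall (f.length + g.length)).2
  exact h2 f g (by omega) (by omega)

/-- the start of the bootstrap. -/
lemma start {br : ∀ m : ℕ, PR N m →ₗ[ℂ] PR N m →ₗ[ℂ] PR N m} (h : IsTraceFamily N br)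
    {Θ : ∀ r, V N r} (hgood : ∀ f g, Good (tens br) Θ f g) {r m : ℕ} (hm : 0 < m)
    (f g : List (Fin N)) (hlen : (f.length - 1) + ((g.length - 1) + r) ≤ 2 * m) (hr : 1 ≤ r)
    (hdeg : (br m (tr N m (wd f)) (tr N m (wd g))).totalDegree < r) :
    Bl (Θ r) (cg f) (cg g) ∈ comm (FA N) := by
  obtain ⟨P, hP⟩ := h.trace (wd f) (wd g)
  obtain ⟨R0, hR0⟩ := hgood f g P (rel_of_represents h hP)
  have hmem := tr_comm (m := m) (hR0 (max R0 (r + 1)) (le_max_left _ _))
  rw [tr_sub, sub_eq_zero, ← hP m hm] at hmem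
  apply mem_comm_of_level (m := m) (by omega) hlen (Bl_mem Θ f g r)
  have h1 := congrArg (homogeneousComponent ((f.length - 1) + ((g.length - 1) + r))) hmem
  rw [homogeneousComponent_eq_zero _ _ (by omega), H70.TP.PSum, tr_sum, map_sum,
    Finset.sum_eq_single r] at h1
  · rw [homogeneousComponent_of_mem (isHomogeneous_tr (Bl_mem Θ f g r)), if_pos rfl] at h1
    exact h1.symm
  · intro r' _ hr'
    rw [homogeneousComponent_of_mem (isHomogeneous_tr (Bl_mem Θ f g r')), if_neg (by omega)]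
  · intro h2
    exact absurd (Finset.mem_range.2 (by omega)) h2

/-- The main implication for at least two letters. -/
lemma local_of_growth (hN : 2 ≤ N) {br : ∀ m : ℕ, PR N m →ₗ[ℂ] PR N m →ₗ[ℂ] PR N m}
    (h : IsTraceFamily N br) (m₀ : ℕ)
    (hdeg : ∀ m, m₀ ≤ m → ∀ w₁ w₂ : List (Fin N), w₁.length ≤ 5 * Nat.log N m →
      w₂.length ≤ 5 * Nat.log N m →
      (br m (tr N m (wd w₁)) (tr N m (wd w₂))).totalDegree + 10 * Nat.log N m ≤ 2 * m) :
    InducedLocal br := by
  have hinv : ∀ m, 0 < m → PermInv (tens br m) := fun m hm => permInv_tens h hm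
  obtain ⟨M, hM⟩ := exists_theta (tens br) hinv (hex_of_family h)
  set Θ : ∀ r, V N r := fun r => thetaV (tens br (M r + 1)) r with hΘ
  apply inducedLocal_of_bound h hM (max (2 * m₀) (N ^ 14))
  intro r hr f g
  have hr1 : 2 * m₀ ≤ r := (le_max_left _ _).trans hr
  have hr2 : N ^ 14 ≤ r := (le_max_right _ _).trans hr
  have hN14 : 2 ^ 14 ≤ N ^ 14 := Nat.pow_le_pow_left hN 14
  have hr3 : 16384 ≤ r := by
    have : (2 : ℕ) ^ 14 = 16384 := by norm_num
    omega
  set ℓ := Nat.log N r with hℓ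
  have hℓ14 : 14 ≤ ℓ := by
    rw [hℓ]
    exact Nat.le_log_of_pow_le (by omega) hr2
  have hlow : N ^ ℓ ≤ r := Nat.pow_log_le_self N (by omega)
  have hup : r < N ^ (ℓ + 1) := Nat.lt_pow_succ_log_self (by omega) r
  have hexp : 8 * ℓ + 24 ≤ r := by
    have h1 : 2 ^ ℓ ≤ N ^ ℓ := Nat.pow_le_pow_left hN ℓ
    have h2 : 8 * ℓ + 24 ≤ 2 ^ ℓ := by
      obtain ⟨j, hj⟩ : ∃ j, ℓ = 14 + j := ⟨ℓ - 14, by omega⟩
      rw [hj]
      clear_value ℓ
      clear hj hlow hup hℓ14 h1
      induction j with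
      | zero => norm_num
      | succ j ih => rw [← add_assoc, pow_succ]; omega
    omega
  apply boot hN (by omega) (Θ r) (ℓ + 2) (by omega)
  · rw [show ℓ + 2 = (ℓ + 1) + 1 from rfl, pow_succ]
    have h3 : N ^ (ℓ + 1) * 2 ≤ N ^ (ℓ + 1) * N := Nat.mul_le_mul_left _ hN
    omega
  · intro f' g' hf' hg'
    by_cases hf0 : f' = []
    · rw [hf0, show (cg ([] : List (Fin N))) = fun _ => 0 from funext cg_nil, Bl_zero_left]
      exact Submodule.zero_mem _
    by_cases hg0 : g' = []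
    · rw [hg0, show (cg ([] : List (Fin N))) = fun _ => 0 from funext cg_nil, Bl_zero_right]
      exact Submodule.zero_mem _
    obtain ⟨m, hm1, hm2⟩ : ∃ m, r + 8 * ℓ + 16 ≤ 2 * m ∧ 2 * m ≤ r + 8 * ℓ + 17 :=
      ⟨(r + 8 * ℓ + 17) / 2, by omega, by omega⟩
    have hlog : ℓ ≤ Nat.log N m + 1 := by
      have h1 : N ^ (ℓ - 1) ≤ m := by
        have h2 : N ^ (ℓ - 1) * N ≤ r := by
          rw [← pow_succ, show ℓ - 1 + 1 = ℓ by omega]
          exact hlow
        have h3 : N ^ (ℓ - 1) * 2 ≤ N ^ (ℓ - 1) * N := Nat.mul_le_mul_left _ hN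
        omega
      have := Nat.le_log_of_pow_le (by omega) h1
      omega
    have hd := hdeg m (by omega) f' g' (by omega) (by omega)
    exact start h hM (m := m) (by omega) f' g' (by omega) (by omega) (by omega)

/-- For at most one letter the induced bracket vanishes. -/
lemma local_of_le_one (hN : N ≤ 1) {br : ∀ m : ℕ, PR N m →ₗ[ℂ] PR N m →ₗ[ℂ] PR N m}
    (h : IsTraceFamily N br) : InducedLocal br := by
  classical
  have : Subsingleton (Fin N) := by
    constructor
    intro a b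
    apply Fin.ext
    omega
  have hzero : ∀ a b : PR N 1, br 1 a b = 0 := by
    have h1 : ∀ p q : Fin N × Fin 1 × Fin 1, br 1 (X p) (X q) = 0 := by
      intro p q
      rw [Subsingleton.elim p q]
      have h2 := h.skew 1 one_pos (X q) (X q)
      exact self_eq_neg.1 h2
    have h2 : ∀ (q : Fin N × Fin 1 × Fin 1) (a : PR N 1), br 1 (X q) a = 0 := by
      intro q a
      rw [derivation_formula (br 1 (X q)) (h.leibniz 1 one_pos _) a]
      apply Finset.sum_eq_zero
      intro p _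
      rw [h1, mul_zero]
    intro a b
    rw [derivation_formula (br 1 a) (h.leibniz 1 one_pos _) b]
    apply Finset.sum_eq_zero
    intro p _
    rw [h.skew 1 one_pos, h2, neg_zero, mul_zero]
  refine ⟨fun _ _ => 0, fun _ _ => Subalgebra.zero_mem _, ?_⟩
  intro P₁ P₂ P₃ f g _ _ hP
  have h3 : tr N 1 P₃ = 0 := by rw [← hP 1 one_pos, hzero]
  obtain ⟨s, c, rfl⟩ := exists_repr P₃
  let φ : PR N 1 →ₐ[ℂ] Polynomial ℂ := aeval fun _ => Polynomial.X
  have hφ : ∀ w : List (Fin N), φ (tr N 1 (wd w)) = Polynomial.X ^ w.length := by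
    intro w
    rw [tr, Matrix.trace, Finset.sum_eq_single (0 : Fin 1)
      (fun b _ hb => absurd (Subsingleton.elim b 0) hb) (by simp), Matrix.diag_apply]
    induction w with
    | nil => rw [ev_wd_nil]; simp
    | cons x w ih =>
      rw [ev_wd_cons, Matrix.mul_apply, Finset.sum_eq_single (0 : Fin 1)
        (fun b _ hb => absurd (Subsingleton.elim b 0) hb) (by simp), map_mul, ih,
        List.length_cons, pow_succ', gen, Matrix.of_apply]
      simp [φ]
  have hc : ∀ w ∈ s, c w = 0 := by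
    intro w hw
    have h4 := congrArg (fun q => (φ q).coeff w.length) h3
    simp only [tr_sum, tr_smul, map_sum, map_smul, hφ, map_zero, Polynomial.coeff_zero,
      Polynomial.finsetSum_coeff, Polynomial.coeff_smul, Polynomial.coeff_X_pow,
      smul_eq_mul] at h4
    rw [Finset.sum_eq_single w] at h4
    · simpa using h4
    · intro w' _ hw'
      rw [if_neg, mul_zero]
      intro hl
      apply hw'
      apply List.ext_getElem hl.symm
      intro n _ _
      exact Subsingleton.elim _ _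
    · intro h5
      exact absurd hw h5
  have h6 : (∑ w ∈ s, c w • wd w : FA N) = 0 := by
    apply Finset.sum_eq_zero
    intro w hw
    rw [hc w hw, zero_smul]
  rw [h6]
  simp

lemma log_le_log_two (N m : ℕ) : Nat.log N m ≤ Nat.log 2 m := by
  rcases Nat.lt_or_ge N 2 with h | h
  · rw [Nat.log_of_left_le_one (by omega)]
    exact Nat.zero_le _
  · exact Nat.log_anti_left (by norm_num) h

/-- **The gap theorem.** -/
theorem gap (N : ℕ) (br : ∀ m : ℕ, PR N m →ₗ[ℂ] PR N m →ₗ[ℂ] PR N m)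
    (h : IsTraceFamily N br) :
    InducedLocal br ↔ ∃ m₀ : ℕ, ∀ m, m₀ ≤ m → ∀ w₁ w₂ : List (Fin N),
      w₁.length ≤ 5 * Nat.log N m → w₂.length ≤ 5 * Nat.log N m →
      (br m (tr N m (wd w₁)) (tr N m (wd w₂))).totalDegree + 10 * Nat.log N m ≤ 2 * m := by
  constructor
  · intro hloc
    obtain ⟨d, hd⟩ := (criterion N br h).2 hloc
    refine ⟨2 ^ (8 + d), fun m hm w₁ w₂ h1 h2 => ?_⟩
    have hm0 : 0 < m := lt_of_lt_of_le (by positivity) hm
    have hL : 8 + d ≤ Nat.log 2 m := Nat.le_log_of_pow_le (by norm_num) hm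
    have hlow : 2 ^ Nat.log 2 m ≤ m := Nat.pow_log_le_self 2 (by omega)
    have hexp : 20 * Nat.log 2 m + d ≤ 2 ^ Nat.log 2 m := by
      obtain ⟨j, hj⟩ : ∃ j, Nat.log 2 m = 8 + d + j := ⟨Nat.log 2 m - (8 + d), by omega⟩
      rw [hj]
      clear hj hlow hL
      have h0 : 20 * (8 + d) + d ≤ 2 ^ (8 + d) := by
        clear hd hm h1 h2
        induction d with
        | zero => norm_num
        | succ d ih => rw [show 8 + (d + 1) = (8 + d) + 1 from rfl, pow_succ]; omega
      induction j with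
      | zero => exact h0
      | succ j ih => rw [show 8 + d + (j + 1) = (8 + d + j) + 1 from rfl, pow_succ]; omega
    have := hd m hm0 w₁ w₂
    have hll := log_le_log_two N m
    omega
  · rintro ⟨m₀, hm₀⟩
    rcases Nat.lt_or_ge N 2 with hN | hN
    · exact local_of_le_one (by omega) h
    · exact local_of_growth hN h m₀ hm₀

/-- The three-way equivalence. -/
theorem gap_tfae (N : ℕ) (br : ∀ m : ℕ, PR N m →ₗ[ℂ] PR N m →ₗ[ℂ] PR N m)
    (h : IsTraceFamily N br) :
    List.TFAE [InducedLocal br,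
      ∃ d : ℕ, ∀ m, 0 < m → ∀ w₁ w₂ : List (Fin N),
        (br m (tr N m (wd w₁)) (tr N m (wd w₂))).totalDegree ≤ w₁.length + w₂.length + d,
      ∃ m₀ : ℕ, ∀ m, m₀ ≤ m → ∀ w₁ w₂ : List (Fin N),
        w₁.length ≤ 5 * Nat.log N m → w₂.length ≤ 5 * Nat.log N m →
        (br m (tr N m (wd w₁)) (tr N m (wd w₂))).totalDegree + 10 * Nat.log N m ≤ 2 * m] := by
  tfae_have 1 ↔ 2 := (criterion N br h).symm
  tfae_have 1 ↔ 3 := gap N br h
  tfae_finish

end Pool.Agent.H86.Gap
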