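import Pool.Agent.H70.TP.Final

set_option autoImplicit false

open MvPolynomial

namespace Pool.Agent.H86.Gap

open Pool.Agent.H70.TP

variable {N m : ℕ}

/-- evaluation of noncommutative polynomials at a tuple of complex matrices. -/
noncomputable def evX (X : Fin N → Matrix (Fin m) (Fin m) ℂ) :
    FA N →ₐ[ℂ] Matrix (Fin m) (Fin m) ℂ :=
  FreeAlgebra.lift ℂ X

lemma evX_ι (X : Fin N → Matrix (Fin m) (Fin m) ℂ) (i : Fin N) :
    evX X (FreeAlgebra.ι ℂ i) = X i := by simp [evX]

/-- the homomorphism to block triangular matrices. -/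
noncomputable def triX (X δ : Fin N → Matrix (Fin m) (Fin m) ℂ) :
    FA N →ₐ[ℂ] Matrix (Fin 2) (Fin 2) (Matrix (Fin m) (Fin m) ℂ) :=
  FreeAlgebra.lift ℂ fun i => Matrix.of fun a b =>
    if a = b then X i else if a = 0 then δ i else 0

lemma triX_spec (X δ : Fin N → Matrix (Fin m) (Fin m) ℂ) (P : FA N) :
    triX X δ P 1 0 = 0 ∧ triX X δ P 0 0 = evX X P ∧ triX X δ P 1 1 = evX X P := by
  induction P using FreeAlgebra.induction with
  | grade0 r =>
    rw [AlgHom.commutes, AlgHom.commutes, Matrix.algebraMap_matrix_apply,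
      Matrix.algebraMap_matrix_apply, Matrix.algebraMap_matrix_apply]
    simp
  | grade1 x => simp [triX, evX]
  | mul a b ha hb =>
    rw [map_mul, map_mul, Matrix.mul_apply, Matrix.mul_apply, Matrix.mul_apply, Fin.sum_univ_two,
      Fin.sum_univ_two, Fin.sum_univ_two, ha.1, ha.2.1, ha.2.2, hb.1, hb.2.1, hb.2.2]
    simp
  | add a b ha hb =>
    rw [map_add, map_add, Matrix.add_apply, Matrix.add_apply, Matrix.add_apply, ha.1, ha.2.1,
      ha.2.2, hb.1, hb.2.1, hb.2.2]
    simp

/-- the derivation over `evX X` with values `δ i` on the generators. -/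
noncomputable def dX (X δ : Fin N → Matrix (Fin m) (Fin m) ℂ) :
    FA N →ₗ[ℂ] Matrix (Fin m) (Fin m) ℂ where
  toFun P := triX X δ P 0 1
  map_add' P Q := by rw [map_add, Matrix.add_apply]
  map_smul' c P := by rw [map_smul, Matrix.smul_apply]; rfl

lemma dX_mul (X δ : Fin N → Matrix (Fin m) (Fin m) ℂ) (a b : FA N) :
    dX X δ (a * b) = dX X δ a * evX X b + evX X a * dX X δ b := by
  change triX X δ (a * b) 0 1 = triX X δ a 0 1 * evX X b + evX X a * triX X δ b 0 1
  rw [map_mul, Matrix.mul_apply, Fin.sum_univ_two, (triX_spec X δ a).2.1, (triX_spec X δ b).2.2,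
    add_comm]

lemma dX_ι (X δ : Fin N → Matrix (Fin m) (Fin m) ℂ) (i : Fin N) :
    dX X δ (FreeAlgebra.ι ℂ i) = δ i := by
  change triX X δ (FreeAlgebra.ι ℂ i) 0 1 = _
  simp [triX]

lemma dX_one (X δ : Fin N → Matrix (Fin m) (Fin m) ℂ) : dX X δ 1 = 0 := by
  change triX X δ 1 0 1 = 0
  rw [map_one]; simp

/-- the explicit formula on words. -/
lemma dX_wd (X δ : Fin N → Matrix (Fin m) (Fin m) ℂ) (w : List (Fin N)) :
    dX X δ (wd w) = ∑ s ∈ Finset.range w.length, ∑ i, if w[s]? = some i then
      evX X (wd (w.take s)) * (δ i * evX X (wd (w.drop (s + 1)))) else 0 := by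
  induction w with
  | nil => rw [wd_nil, dX_one]; simp
  | cons x w ih =>
    rw [wd_cons, dX_mul, ih, dX_ι, evX_ι, List.length_cons, Finset.sum_range_succ', add_comm]
    congr 1
    · rw [Finset.mul_sum]
      apply Finset.sum_congr rfl
      intro s _
      rw [Finset.mul_sum]
      apply Finset.sum_congr rfl
      intro i _
      simp only [List.getElem?_cons_succ, List.take_succ_cons, List.drop_succ_cons]
      split_ifs
      · rw [wd_cons, map_mul, evX_ι, mul_assoc]
      · rw [mul_zero]
    · rw [Finset.sum_eq_single x]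
      · simp
      · intro i _ hi
        rw [if_neg]
        simpa using Ne.symm hi
      · simp

/-- the derivative of the trace of a word is the pairing with the cyclic gradient. -/
lemma trace_dX_wd (X δ : Fin N → Matrix (Fin m) (Fin m) ℂ) (w : List (Fin N)) :
    Matrix.trace (dX X δ (wd w)) = ∑ i, Matrix.trace (evX X (cg w i) * δ i) := by
  rw [dX_wd, Matrix.trace_sum]
  simp only [Matrix.trace_sum, cg, map_sum, Finset.sum_mul]
  rw [Finset.sum_comm]
  apply Finset.sum_congr rfl
  intro i _
  apply Finset.sum_congr rfl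
  intro s _
  split_ifs
  · rw [wd_append, map_mul, ← mul_assoc, Matrix.trace_mul_comm, mul_assoc]
  · rw [map_zero, zero_mul]

/-- **Full rank.**  If the noncommutative polynomials of degree at most `l` take all values at
`X` and the derivative in the direction `δ` of the traces of all words of length at most
`2 l + 1` vanishes at `X`, then the same holds for all words. -/
lemma full_rank (X δ : Fin N → Matrix (Fin m) (Fin m) ℂ) (l : ℕ)
    (hspan : ∀ M : Matrix (Fin m) (Fin m) ℂ, ∃ P ∈ degLE N l, evX X P = M)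
    (h : ∀ w : List (Fin N), w.length ≤ 2 * l + 1 → Matrix.trace (dX X δ (wd w)) = 0)
    (w : List (Fin N)) : Matrix.trace (dX X δ (wd w)) = 0 := by
  have hlin : ∀ P ∈ degLE N (2 * l + 1), Matrix.trace (dX X δ P) = 0 := by
    intro P hP
    induction hP using Submodule.span_induction with
    | mem x hx =>
      obtain ⟨u, hu, rfl⟩ := hx
      exact h u hu
    | zero => rw [map_zero, Matrix.trace_zero]
    | add x y _ _ hx hy => rw [map_add, Matrix.trace_add, hx, hy, add_zero]
    | smul c x _ hx => rw [map_smul, Matrix.trace_smul, hx, smul_zero]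
  have hker : ∀ P ∈ degLE N (l + 1), evX X P = 0 → dX X δ P = 0 := by
    intro P hP h0
    refine Matrix.ext fun a b => ?_
    obtain ⟨Q, hQ, hQe⟩ := hspan (Matrix.single b a 1)
    have h1 := hlin (P * Q) (degLE_mono (by omega) (mul_mem_degLE hP hQ))
    rw [dX_mul, h0, zero_mul, add_zero, hQe, Matrix.trace_mul_comm, Matrix.trace_single_mul] at h1
    simpa using h1
  have hred : ∀ w : List (Fin N), ∃ P ∈ degLE N l, evX X P = evX X (wd w) ∧
      dX X δ P = dX X δ (wd w) := by
    intro w
    induction w with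
    | nil => exact ⟨wd [], wd_mem_degLE (Nat.zero_le _), rfl, rfl⟩
    | cons x w ih =>
      obtain ⟨P, hP, hPe, hPd⟩ := ih
      obtain ⟨P', hP', hPe'⟩ := hspan (evX X (FreeAlgebra.ι ℂ x * P))
      have hx : FreeAlgebra.ι ℂ x * P ∈ degLE N (l + 1) := by
        rw [← wd_singleton, add_comm]
        exact mul_mem_degLE (wd_mem_degLE (by simp)) hP
      have h1 : dX X δ (FreeAlgebra.ι ℂ x * P - P') = 0 := by
        apply hker
        · exact Submodule.sub_mem _ hx (degLE_mono (by omega) hP')
        · rw [map_sub, hPe', sub_self]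
      rw [map_sub, sub_eq_zero] at h1
      refine ⟨P', hP', ?_, ?_⟩
      · rw [hPe', wd_cons, map_mul, map_mul, hPe]
      · rw [← h1, wd_cons, dX_mul, dX_mul, hPe, hPd]
  obtain ⟨P, hP, -, hPd⟩ := hred w
  rw [← hPd]
  exact hlin P (degLE_mono (by omega) hP)

end Pool.Agent.H86.Gap
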