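import Pool.Agent.H86.Gap.Span

set_option autoImplicit false

open MvPolynomial

namespace Pool.Agent.H86.Gap

open Pool.Agent.H70.TP

variable {N m : ℕ}

/-- evaluation of polynomial functions at a tuple of matrices. -/
noncomputable def evp (X : Fin N → Matrix (Fin m) (Fin m) ℂ) : PR N m →ₐ[ℂ] ℂ :=
  aeval fun p : Fin N × Fin m × Fin m => X p.1 p.2.1 p.2.2

lemma evp_ev (X : Fin N → Matrix (Fin m) (Fin m) ℂ) (Q : FA N) (a b : Fin m) :
    evp X (ev N m Q a b) = evX X Q a b := by
  have h : ((evp X).mapMatrix).comp (ev N m) = evX X := by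
    apply FreeAlgebra.hom_ext
    funext i
    ext a b
    simp [evp, ev, evX, gen]
  have h2 := congrArg (fun F : FA N →ₐ[ℂ] Matrix (Fin m) (Fin m) ℂ => F Q a b) h
  simpa using h2

lemma evp_tr (X : Fin N → Matrix (Fin m) (Fin m) ℂ) (Q : FA N) :
    evp X (tr N m Q) = Matrix.trace (evX X Q) := by
  rw [tr, Matrix.trace, Matrix.trace, map_sum]
  apply Finset.sum_congr rfl
  intro a _
  rw [Matrix.diag_apply, Matrix.diag_apply, evp_ev]

lemma trace_Bl_left (X : Fin N → Matrix (Fin m) (Fin m) ℂ) {r : ℕ} (θ : V N r)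
    (f : List (Fin N)) (G : Fin N → FA N) :
    Matrix.trace (evX X (Bl θ (cg f) G)) =
      Matrix.trace (dX X (fun i => evX X (∑ j, Op θ i j (G j))) (wd f)) := by
  rw [trace_dX_wd, Bl, map_sum, Matrix.trace_sum]
  apply Finset.sum_congr rfl
  intro i _
  rw [← Finset.mul_sum, map_mul]

lemma trace_Bl_right (X : Fin N → Matrix (Fin m) (Fin m) ℂ) {r : ℕ} (θ : V N r)
    (F : Fin N → FA N) (g : List (Fin N)) :
    Matrix.trace (evX X (Bl θ F (cg g))) =
      Matrix.trace (dX X (fun j => evX X (∑ i, OpT θ i j (F i))) (wd g)) := by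
  rw [trace_dX_wd, Bl, Finset.sum_comm, map_sum, Matrix.trace_sum]
  apply Finset.sum_congr rfl
  intro j _
  rw [← map_mul, ← evp_tr, ← evp_tr, tr_sum, Finset.mul_sum, tr_sum]
  exact congrArg _ (Finset.sum_congr rfl fun i _ => tr_Op_comm θ i j _ _)

/-- the pointwise statement. -/
lemma point_rank (X : Fin N → Matrix (Fin m) (Fin m) ℂ) {r : ℕ} (θ : V N r) (l : ℕ)
    (hspan : ∀ M : Matrix (Fin m) (Fin m) ℂ, ∃ P ∈ degLE N l, evX X P = M)
    (h : ∀ f g : List (Fin N), f.length ≤ 2 * l + 1 → g.length ≤ 2 * l + 1 →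
      Matrix.trace (evX X (Bl θ (cg f) (cg g))) = 0) (f g : List (Fin N)) :
    Matrix.trace (evX X (Bl θ (cg f) (cg g))) = 0 := by
  rw [trace_Bl_right]
  apply full_rank X _ l hspan
  intro g' hg'
  rw [← trace_Bl_right, trace_Bl_left]
  apply full_rank X _ l hspan
  intro f' hf'
  rw [← trace_Bl_left]
  exact h f' g' hf' hg'

/-- **Full rank for generic matrices of size `N ^ k`.** -/
lemma generic_rank (k : ℕ) [NeZero k] {r : ℕ} (θ : V N r)
    (h : ∀ f g : List (Fin N), f.length ≤ 4 * k + 1 → g.length ≤ 4 * k + 1 →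
      tr N (N ^ k) (Bl θ (cg f) (cg g)) = 0) (f g : List (Fin N)) :
    tr N (N ^ k) (Bl θ (cg f) (cg g)) = 0 := by
  classical
  choose P hP hPe using fun p : Fin (N ^ k) × Fin (N ^ k) =>
    X0_span N k (Matrix.single p.1 p.2 (1 : ℂ))
  let G : Matrix (Fin (N ^ k) × Fin (N ^ k)) (Fin (N ^ k) × Fin (N ^ k)) (PR N (N ^ k)) :=
    Matrix.of fun p q => ev N (N ^ k) (P p) q.1 q.2
  have hG : ∀ X : Fin N → Matrix (Fin (N ^ k)) (Fin (N ^ k)) ℂ, evp X G.det =
      (Matrix.of fun p q : Fin (N ^ k) × Fin (N ^ k) => evX X (P p) q.1 q.2).det := by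
    intro X
    rw [AlgHom.map_det]
    congr 1
    ext p q
    simp only [G, AlgHom.mapMatrix_apply, Matrix.map_apply, Matrix.of_apply, evp_ev]
  have hdet : G.det ≠ 0 := by
    intro h0
    have h1 := hG (X0 N k)
    rw [h0, map_zero] at h1
    have h2 : (Matrix.of fun p q : Fin (N ^ k) × Fin (N ^ k) =>
        evX (X0 N k) (P p) q.1 q.2) = 1 := by
      ext p q
      rw [Matrix.of_apply, hPe, Matrix.single_apply, Matrix.one_apply]
      by_cases hpq : p = q
      · rw [if_pos hpq, if_pos]
        rw [hpq]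
        exact ⟨rfl, rfl⟩
      · rw [if_neg hpq, if_neg]
        rintro ⟨h3, h4⟩
        exact hpq (Prod.ext h3 h4)
    rw [h2, Matrix.det_one] at h1
    exact zero_ne_one h1
  have key : G.det * tr N (N ^ k) (Bl θ (cg f) (cg g)) = 0 := by
    apply MvPolynomial.funext
    intro x
    rw [map_zero]
    let X : Fin N → Matrix (Fin (N ^ k)) (Fin (N ^ k)) ℂ :=
      fun i => Matrix.of fun a b => x (i, a, b)
    have hx : ∀ q : PR N (N ^ k), eval x q = evp X q := by
      intro q
      rw [evp, aeval_def, eval₂_eq_eval_map]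
      simp [X]
    rw [hx, map_mul]
    by_cases hd : evp X G.det = 0
    · rw [hd, zero_mul]
    · rw [evp_tr]
      have : Matrix.trace (evX X (Bl θ (cg f) (cg g))) = 0 := by
        apply point_rank X θ (2 * k)
        · intro M
          let D : Matrix (Fin (N ^ k) × Fin (N ^ k)) (Fin (N ^ k) × Fin (N ^ k)) ℂ :=
            Matrix.of fun p q => evX X (P p) q.1 q.2
          have hD : IsUnit D.det := by
            rw [isUnit_iff_ne_zero]
            rw [hG X] at hd
            exact hd
          let v : Fin (N ^ k) × Fin (N ^ k) → ℂ := fun q => M q.1 q.2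
          let γ := Matrix.vecMul v D⁻¹
          have hγ : Matrix.vecMul γ D = v := by
            rw [Matrix.vecMul_vecMul, Matrix.nonsing_inv_mul _ hD, Matrix.vecMul_one]
          refine ⟨∑ p, γ p • P p, Submodule.sum_mem _ fun p _ =>
            Submodule.smul_mem _ _ (hP p), ?_⟩
          ext a b
          have h3 := congrFun hγ (a, b)
          rw [map_sum, Matrix.sum_apply]
          simp only [map_smul, Matrix.smul_apply, smul_eq_mul]
          rw [show M a b = v (a, b) from rfl, ← h3, Matrix.vecMul, dotProduct]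
          rfl
        · intro f' g' hf' hg'
          rw [← evp_tr, h f' g' (by omega) (by omega), map_zero]
      rw [this, mul_zero]
  rcases mul_eq_zero.1 key with h1 | h1
  · exact absurd h1 hdet
  · exact h1

end Pool.Agent.H86.Gap
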