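import Pool.Agent.H86.Gap.Point

set_option autoImplicit false

namespace Pool.Agent.H86.Gap

open Pool.Agent.H70.TP

variable {N : ℕ}

/-- the local matrices `C_a = e_a v_aᵀ` with `v_a = 1 + e_a`; the products of two of them form a
basis of the `N × N` matrices. -/
noncomputable def C2 (a : Fin N) : Matrix (Fin N) (Fin N) ℂ :=
  Matrix.of fun x y => if x = a then (1 + if y = a then 1 else 0) else 0

lemma C2_mul (a b : Fin N) (x y : Fin N) : (C2 a * C2 b) x y =
    if x = a then (1 + if b = a then 1 else 0) * (1 + if y = b then 1 else 0) else 0 := by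
  simp only [C2, Matrix.mul_apply, Matrix.of_apply]
  rw [Finset.sum_eq_single b]
  · rw [if_pos rfl, ite_mul, zero_mul]
  · intro z _ hz
    rw [if_neg hz, mul_zero]
  · simp

lemma vne (a b : Fin N) : (1 + if b = a then (1 : ℂ) else 0) ≠ 0 := by
  split_ifs <;> norm_num

lemma C2_basis (p q : Fin N) : ∃ γ : Fin N × Fin N → ℂ,
    Matrix.single p q (1 : ℂ) = ∑ s, γ s • (C2 s.1 * C2 s.2) := by
  have hN : ((N : ℂ) + 1) ≠ 0 := Nat.cast_add_one_ne_zero N
  refine ⟨fun s => if s.1 = p then
    ((if s.2 = q then 1 else 0) - 1 / ((N : ℂ) + 1)) / (1 + if s.2 = p then 1 else 0) else 0, ?_⟩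
  ext x y
  rw [Fintype.sum_prod_type, Finset.sum_eq_single p]
  · rw [Matrix.sum_apply]
    simp only [if_true, Matrix.smul_apply, smul_eq_mul, C2_mul]
    rw [Matrix.single_apply]
    by_cases hx : x = p
    · subst hx
      simp only [if_true, true_and]
      have h1 : ∀ b : Fin N, ((if b = q then (1 : ℂ) else 0) - 1 / ((N : ℂ) + 1)) /
          (1 + if b = x then 1 else 0) * ((1 + if b = x then 1 else 0) *
            (1 + if y = b then 1 else 0)) =
          ((if b = q then (1 : ℂ) else 0) - 1 / ((N : ℂ) + 1)) * (1 + if y = b then 1 else 0) := by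
        intro b
        rw [← mul_assoc, div_mul_cancel₀ _ (vne x b)]
      rw [Finset.sum_congr rfl (fun b _ => h1 b)]
      simp only [sub_mul, mul_add, mul_one, Finset.sum_sub_distrib, Finset.sum_add_distrib,
        mul_ite, mul_zero, Finset.sum_ite_eq, Finset.sum_ite_eq', Finset.mem_univ, if_true,
        Finset.sum_const, Finset.card_univ, Fintype.card_fin, nsmul_eq_mul]
      by_cases hyq : q = y
      · subst hyq
        simp only [if_true]
        field_simp
        ring
      · have hyq' : ¬ y = q := fun h => hyq h.symm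
        simp only [if_neg hyq, if_neg hyq']
        field_simp
        ring
    · rw [if_neg (fun h => hx h.1.symm)]
      symm
      apply Finset.sum_eq_zero
      intro b _
      rw [if_neg hx, mul_zero]
  · intro a _ ha
    apply Finset.sum_eq_zero
    intro b _
    simp only [if_neg ha, zero_smul]
  · simp

variable {k : ℕ}

/-- the tensor product of `k` matrices of size `N`. -/
noncomputable def T (A : Fin k → Matrix (Fin N) (Fin N) ℂ) :
    Matrix (Fin k → Fin N) (Fin k → Fin N) ℂ :=
  Matrix.of fun x y => ∏ i, A i (x i) (y i)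

lemma T_mul (A B : Fin k → Matrix (Fin N) (Fin N) ℂ) : T A * T B = T fun i => A i * B i := by
  ext x y
  simp only [T, Matrix.mul_apply, Matrix.of_apply]
  rw [Finset.prod_univ_sum]
  simp only [Finset.prod_mul_distrib, Fintype.piFinset_univ]

lemma T_single (x y : Fin k → Fin N) :
    T (fun i => Matrix.single (x i) (y i) (1 : ℂ)) = Matrix.single x y 1 := by
  ext x' y'
  simp only [T, Matrix.of_apply, Matrix.single_apply]
  by_cases h : x = x' ∧ y = y'
  · rw [if_pos h]
    apply Finset.prod_eq_one
    intro i _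
    rw [if_pos]
    exact ⟨congrFun h.1 i, congrFun h.2 i⟩
  · rw [if_neg h]
    have : ∃ i, ¬ (x i = x' i ∧ y i = y' i) := by
      by_contra hc
      push Not at hc
      exact h ⟨funext fun i => (hc i).1, funext fun i => (hc i).2⟩
    obtain ⟨i, hi⟩ := this
    exact Finset.prod_eq_zero (Finset.mem_univ i) (if_neg hi)

lemma T_sum (γ : Fin k → Fin N × Fin N → ℂ) (M : Fin N × Fin N → Matrix (Fin N) (Fin N) ℂ) :
    T (fun i => ∑ s, γ i s • M s) =
      ∑ s : Fin k → Fin N × Fin N, (∏ i, γ i (s i)) • T (fun i => M (s i)) := by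
  ext x y
  simp only [T, Matrix.of_apply, Matrix.sum_apply, Matrix.smul_apply, smul_eq_mul]
  rw [Finset.prod_univ_sum]
  simp only [Finset.prod_mul_distrib, Fintype.piFinset_univ]

variable [NeZero k]

/-- rotation of the tensor factors. -/
def rot (n : ℕ) (x : Fin k → Fin N) : Fin k → Fin N := fun i => x (i + Fin.ofNat k n)

lemma ofNat_add (a b : ℕ) : Fin.ofNat k (a + b) = Fin.ofNat k a + Fin.ofNat k b := by
  apply Fin.ext
  simp [Fin.ofNat, Fin.val_add]

lemma rot_rot (n : ℕ) (x : Fin k → Fin N) : rot n (rot 1 x) = rot (n + 1) x := by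
  funext i
  simp only [rot, ofNat_add, add_assoc]

/-- rotation as a permutation. -/
def rotE (n : ℕ) : (Fin k → Fin N) ≃ (Fin k → Fin N) :=
  Equiv.arrowCongr (Equiv.subRight (Fin.ofNat k n)) (Equiv.refl _)

lemma rotE_apply (n : ℕ) (x : Fin k → Fin N) : rotE n x = rot n x := by
  funext i
  simp [rotE, rot, Equiv.arrowCongr]

lemma T_shift (n : ℕ) (A : Fin k → Matrix (Fin N) (Fin N) ℂ) (x z : Fin k → Fin N) :
    T A x z = T (fun j => A (j + Fin.ofNat k n)) (rot n x) (rot n z) := by
  simp only [T, Matrix.of_apply, rot]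
  exact (Equiv.prod_comp (Equiv.addRight (Fin.ofNat k n)) (fun i => A i (x i) (z i))).symm

/-- the letters. -/
noncomputable def Xc (c : Fin N) : Matrix (Fin k → Fin N) (Fin k → Fin N) ℂ :=
  Matrix.of fun x y => T (fun i => if i = 0 then C2 c else 1) (rot 1 x) y

/-- the local factors of a word. -/
noncomputable def MM : List (Fin N) → Fin k → Matrix (Fin N) (Fin N) ℂ
  | [] => fun _ => 1
  | c :: u => fun i => (if i + Fin.ofNat k u.length = 0 then C2 c else 1) * MM u i

lemma prod_word (u : List (Fin N)) (x y : Fin k → Fin N) :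
    (u.map (Xc (k := k))).prod x y = T (MM u) (rot u.length x) y := by
  induction u generalizing x with
  | nil =>
    have h0 : rot (k := k) 0 x = x := by
      funext i
      simp [rot]
    rw [List.map_nil, List.prod_nil, List.length_nil, h0]
    simp only [MM, T, Matrix.of_apply]
    rw [Matrix.one_apply]
    split_ifs with h
    · subst h
      simp
    · obtain ⟨i, hi⟩ := Function.ne_iff.1 h
      symm
      apply Finset.prod_eq_zero (Finset.mem_univ i)
      rw [Matrix.one_apply, if_neg hi]
  | cons c u ih =>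
    rw [List.map_cons, List.prod_cons, Matrix.mul_apply, List.length_cons, ← rot_rot]
    have h1 : ∀ z : Fin k → Fin N, Xc c x z * (u.map (Xc (k := k))).prod z y =
        T (fun j => if j + Fin.ofNat k u.length = 0 then C2 c else 1)
          (rot u.length (rot 1 x)) (rotE u.length z) * T (MM u) (rotE u.length z) y := by
      intro z
      rw [ih, rotE_apply]
      congr 1
      exact T_shift u.length (fun i => if i = 0 then C2 c else 1) (rot 1 x) z
    rw [Finset.sum_congr rfl (fun z _ => h1 z), Equiv.sum_comp (rotE u.length) (fun z =>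
      T (fun j => if j + Fin.ofNat k u.length = 0 then C2 c else 1)
          (rot u.length (rot 1 x)) z * T (MM u) z y), ← Matrix.mul_apply, T_mul]
    rfl

/-- the word with prescribed local factors. -/
def wa (a : Fin k → Fin N) : ℕ → List (Fin N)
  | 0 => []
  | n + 1 => a (- Fin.ofNat k n) :: wa a n

lemma length_wa (a : Fin k → Fin N) (n : ℕ) : (wa a n).length = n := by
  induction n with
  | zero => rfl
  | succ n ih => rw [wa, List.length_cons, ih]

lemma MM_wa (a : Fin k → Fin N) (n : ℕ) (hn : n ≤ k) (i : Fin k) :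
    MM (wa a n) i = if (-i).val < n then C2 (a i) else 1 := by
  induction n with
  | zero => simp [wa, MM]
  | succ n ih =>
    change (if i + Fin.ofNat k (wa a n).length = 0 then C2 (a (- Fin.ofNat k n)) else 1) *
      MM (wa a n) i = _
    rw [ih (by omega), length_wa]
    have hv : (Fin.ofNat k n).val = n := Nat.mod_eq_of_lt (by omega)
    by_cases h : i + Fin.ofNat k n = 0
    · have h1 : -i = Fin.ofNat k n := by
        rw [neg_eq_iff_add_eq_zero]; exact h
      have h2 : i = - Fin.ofNat k n := by rw [← h1, neg_neg]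
      rw [if_pos h, h1, hv, if_neg (lt_irrefl n), if_pos (Nat.lt_succ_self n), mul_one, ← h2]
    · rw [if_neg h, one_mul]
      have h3 : (-i).val ≠ n := by
        intro h4
        apply h
        rw [← neg_eq_iff_add_eq_zero]
        apply Fin.ext
        rw [h4, hv]
      by_cases h5 : (-i).val < n
      · rw [if_pos h5, if_pos (by omega)]
      · rw [if_neg h5, if_neg (by omega)]

lemma prod_wa (a : Fin k → Fin N) :
    ((wa a k).map (Xc (k := k))).prod = T fun i => C2 (a i) := by
  ext x y
  rw [prod_word, length_wa]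
  have h1 : rot (k := k) k x = x := by
    funext i
    simp [rot, Fin.ofNat]
  have h2 : MM (wa a k) = fun i => C2 (a i) := by
    funext i
    rw [MM_wa a k (le_refl k), if_pos (-i).2]
  rw [h1, h2]

/-- the word of length `2 k` realising a tensor product of products of two local matrices. -/
lemma prod_two (s : Fin k → Fin N × Fin N) :
    (((wa (fun i => (s i).1) k) ++ (wa (fun i => (s i).2) k)).map (Xc (k := k))).prod =
      T fun i => C2 (s i).1 * C2 (s i).2 := by
  rw [List.map_append, List.prod_append, prod_wa, prod_wa, T_mul]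

lemma single_expansion (x y : Fin k → Fin N) : ∃ γ : (Fin k → Fin N × Fin N) → ℂ,
    Matrix.single x y (1 : ℂ) = ∑ s, γ s •
      (((wa (fun i => (s i).1) k) ++ (wa (fun i => (s i).2) k)).map (Xc (k := k))).prod := by
  choose γ hγ using fun i => C2_basis (x i) (y i)
  refine ⟨fun s => ∏ i, γ i (s i), ?_⟩
  rw [← T_single]
  have : (fun i => Matrix.single (x i) (y i) (1 : ℂ)) = fun i => ∑ s, γ i s • (C2 s.1 * C2 s.2) :=
    funext hγ
  rw [this, T_sum]
  apply Finset.sum_congr rfl
  intro s _
  rw [prod_two]

/-- the special point. -/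
noncomputable def X0 (N k : ℕ) [NeZero k] : Fin N → Matrix (Fin (N ^ k)) (Fin (N ^ k)) ℂ :=
  fun i => Matrix.reindexAlgEquiv ℂ ℂ (finFunctionFinEquiv (m := N) (n := k)) (Xc i)

/-- At the special point the words of length at most `2 k` span the matrices. -/
lemma X0_span (N k : ℕ) [NeZero k] (M : Matrix (Fin (N ^ k)) (Fin (N ^ k)) ℂ) :
    ∃ P ∈ degLE N (2 * k), evX (X0 N k) P = M := by
  let e := Matrix.reindexAlgEquiv ℂ ℂ (finFunctionFinEquiv (m := N) (n := k))
  let S : Submodule ℂ (Matrix (Fin (N ^ k)) (Fin (N ^ k)) ℂ) :=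
    Submodule.map (evX (X0 N k)).toLinearMap (degLE N (2 * k))
  have hword : ∀ u : List (Fin N), evX (X0 N k) (wd u) = e (u.map (Xc (k := k))).prod := by
    intro u
    induction u with
    | nil => simp [e]
    | cons c u ih =>
      rw [wd_cons, map_mul, evX_ι, ih, List.map_cons, List.prod_cons, map_mul]
      rfl
  have hsingle : ∀ x y : Fin k → Fin N, e (Matrix.single x y 1) ∈ S := by
    intro x y
    obtain ⟨γ, hγ⟩ := single_expansion (k := k) x y
    rw [hγ, map_sum]
    apply Submodule.sum_mem
    intro s _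
    rw [map_smul]
    apply Submodule.smul_mem
    rw [← hword]
    refine ⟨_, wd_mem_degLE ?_, rfl⟩
    rw [List.length_append, length_wa, length_wa]
    omega
  have hall : ∀ M' : Matrix (Fin k → Fin N) (Fin k → Fin N) ℂ, e M' ∈ S := by
    intro M'
    rw [Matrix.matrix_eq_sum_single M', map_sum]
    apply Submodule.sum_mem
    intro x _
    rw [map_sum]
    apply Submodule.sum_mem
    intro y _
    have : Matrix.single x y (M' x y) = M' x y • Matrix.single x y (1 : ℂ) := by
      rw [Matrix.smul_single, smul_eq_mul, mul_one]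
    rw [this, map_smul]
    exact Submodule.smul_mem _ _ (hsingle x y)
  have := hall (e.symm M)
  rw [AlgEquiv.apply_symm_apply] at this
  obtain ⟨P, hP, hPe⟩ := this
  exact ⟨P, hP, hPe⟩

end Pool.Agent.H86.Gap
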