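import Pool.Agent.H86.Gap.Rank

set_option autoImplicit false

open MvPolynomial

namespace Pool.Agent.H86.Gap

open Pool.Agent.H70.TP

variable {N m : ℕ}

/-- the bidiagonal matrices with independent entries. -/
noncomputable def bid (N m : ℕ) (l : Fin N) :
    Matrix (Fin m) (Fin m) (MvPolynomial (Fin N × ℕ) ℂ) :=
  Matrix.of fun a b => if b.val = a.val then X (l, 2 * a.val) else
    if b.val = a.val + 1 then X (l, 2 * a.val + 1) else 0

/-- evaluation at the bidiagonal matrices. -/
noncomputable def evB (N m : ℕ) :
    FA N →ₐ[ℂ] Matrix (Fin m) (Fin m) (MvPolynomial (Fin N × ℕ) ℂ) :=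
  FreeAlgebra.lift ℂ (bid N m)

lemma evB_of_ev {Q : FA N} (h : ev N m Q = 0) : evB N m Q = 0 := by
  let φ : PR N m →ₐ[ℂ] MvPolynomial (Fin N × ℕ) ℂ :=
    aeval fun p : Fin N × Fin m × Fin m => bid N m p.1 p.2.1 p.2.2
  have h1 : (φ.mapMatrix).comp (ev N m) = evB N m := by
    apply FreeAlgebra.hom_ext
    funext i
    ext a b
    simp [φ, ev, evB, gen]
  rw [← h1, AlgHom.comp_apply, h, map_zero]

lemma evB_snoc (y : List (Fin N)) (l : Fin N) :
    evB N m (wd (y ++ [l])) = evB N m (wd y) * bid N m l := by
  rw [wd_append, map_mul, wd_singleton, evB, FreeAlgebra.lift_ι_apply]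

/-- the entries in the first row do not contain variables of later steps. -/
lemma coeff_late (hm : 0 < m) (y : List (Fin N)) (c : Fin m) (κ : Fin N × ℕ →₀ ℕ)
    (p : Fin N × ℕ) (hp : 2 * c.val < p.2) (hκ : κ p ≠ 0) :
    coeff κ (evB N m (wd y) ⟨0, hm⟩ c) = 0 := by
  induction y using List.reverseRecOn generalizing c κ with
  | nil =>
    rw [wd_nil, map_one, Matrix.one_apply]
    split_ifs
    · rw [coeff_one, if_neg]
      rintro rfl
      exact hκ rfl
    · exact coeff_zero _
  | append_singleton y l ih =>
    rw [evB_snoc, Matrix.mul_apply, coeff_sum]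
    apply Finset.sum_eq_zero
    intro b _
    simp only [bid, Matrix.of_apply]
    split_ifs with h1 h2
    · rw [coeff_mul_X']
      split_ifs with h3
      · apply ih
        · omega
        · rw [Finsupp.tsub_apply, Finsupp.single_apply, if_neg, Nat.sub_zero]
          · exact hκ
          · rintro rfl
            simp only at hp
            omega
      · rfl
    · rw [coeff_mul_X']
      split_ifs with h3
      · apply ih
        · omega
        · rw [Finsupp.tsub_apply, Finsupp.single_apply, if_neg, Nat.sub_zero]
          · exact hκ
          · rintro rfl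
            simp only at hp
            omega
      · rfl
    · rw [mul_zero, coeff_zero]

/-- the exponent of a word along the staircase. -/
noncomputable def stm (w : List (Fin N)) : Fin N × ℕ →₀ ℕ :=
  ∑ s ∈ Finset.range w.length, if h : s < w.length then Finsupp.single (w[s], s) 1 else 0

lemma stm_snoc (w : List (Fin N)) (l : Fin N) :
    stm (w ++ [l]) = stm w + Finsupp.single (l, w.length) 1 := by
  rw [stm, stm, show Finset.range (w ++ [l]).length = Finset.range (w.length + 1) by simp,
    Finset.sum_range_succ]
  congr 1
  · apply Finset.sum_congr rfl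
    intro s hs
    have hs' := Finset.mem_range.1 hs
    rw [dif_pos (by rw [List.length_append]; omega), dif_pos hs']
    rw [List.getElem_append_left hs']
  · rw [dif_pos (by rw [List.length_append, List.length_singleton]; omega)]
    rw [List.getElem_append_right (le_refl _)]
    simp

lemma stm_apply_ge (w : List (Fin N)) (l : Fin N) (s : ℕ) (hs : w.length ≤ s) :
    stm w (l, s) = 0 := by
  rw [stm, Finsupp.finsetSum_apply]
  apply Finset.sum_eq_zero
  intro t ht
  have ht' := Finset.mem_range.1 ht
  rw [dif_pos ht', Finsupp.single_apply, if_neg]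
  intro h
  have := congrArg Prod.snd h
  simp only at this
  omega

lemma coeff_stair (w y : List (Fin N)) (hw : w.length < 2 * m) (hy : y.length = w.length) :
    coeff (stm w) (evB N m (wd y) ⟨0, by omega⟩ ⟨w.length / 2, by omega⟩) =
      if y = w then 1 else 0 := by
  classical
  induction w using List.reverseRecOn generalizing y with
  | nil =>
    have : y = [] := List.length_eq_zero_iff.1 hy
    subst this
    rw [if_pos rfl, wd_nil, map_one, Matrix.one_apply, if_pos (by simp)]
    simp [stm]
  | append_singleton w l ih =>
    have hy0 : y ≠ [] := by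
      rintro rfl
      rw [List.length_append] at hy
      simp at hy
    obtain ⟨y, l', rfl⟩ : ∃ y' l', y = y' ++ [l'] :=
      ⟨y.dropLast, y.getLast hy0, (List.dropLast_append_getLast hy0).symm⟩
    have hyw : y.length = w.length := by
      rw [List.length_append, List.length_append] at hy
      simpa using hy
    have hlen : (w ++ [l]).length = w.length + 1 := by simp
    rw [hlen] at hw
    have ih' := ih y (by omega) hyw
    have hval : ∀ b : Fin m, (⟨(w ++ [l]).length / 2, by rw [hlen]; omega⟩ : Fin m).val =
      (w.length + 1) / 2 := fun _ => by simp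
    rw [evB_snoc, Matrix.mul_apply, coeff_sum]
    rw [Finset.sum_eq_single (⟨w.length / 2, by omega⟩ : Fin m)]
    · -- the main term
      have hb : bid N m l' ⟨w.length / 2, by omega⟩
          ⟨(w ++ [l]).length / 2, by rw [hlen]; omega⟩ = X (l', w.length) := by
        simp only [bid, Matrix.of_apply, hlen]
        split_ifs with h1 h2
        · congr 2; omega
        · congr 2; omega
        · omega
      rw [hb, coeff_mul_X', stm_snoc]
      by_cases hl : l' = l
      · subst hl
        rw [if_pos]
        · rw [add_tsub_cancel_right, ih']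
          by_cases hyw' : y = w
          · rw [if_pos hyw', if_pos (by rw [hyw'])]
          · rw [if_neg hyw', if_neg]
            intro h
            exact hyw' (List.append_cancel_right h)
        · rw [Finsupp.mem_support_iff, Finsupp.add_apply, Finsupp.single_eq_same]
          omega
      · rw [if_neg, if_neg]
        · intro h
          have h2 := List.append_inj_right h hyw
          exact hl (List.singleton_inj.1 h2)
        · rw [Finsupp.mem_support_iff, Finsupp.add_apply, stm_apply_ge w l' _ (le_refl _),
            Finsupp.single_apply, if_neg]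
          · simp
          · intro h
            exact hl (congrArg Prod.fst h).symm
    · -- the other terms
      intro b _ hb
      have hb' : b.val ≠ w.length / 2 := fun h => hb (Fin.ext h)
      simp only [bid, Matrix.of_apply, hlen]
      split_ifs with h1 h2
      · -- a loop at a vertex which is not reached: the variable does not occur
        rw [coeff_mul_X', if_neg]
        rw [Finsupp.mem_support_iff, stm_snoc, Finsupp.add_apply,
          stm_apply_ge w l' _ (by omega), Finsupp.single_apply, if_neg]
        · simp
        · intro h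
          have := congrArg Prod.snd h
          simp only at this
          omega
      · rw [coeff_mul_X']
        split_ifs with h3
        · apply coeff_late (by omega) y b _ (l, w.length)
          · simp only
            omega
          · rw [stm_snoc, Finsupp.tsub_apply, Finsupp.add_apply, Finsupp.single_eq_same,
              Finsupp.single_apply, if_neg]
            · omega
            · intro h
              have := congrArg Prod.snd h
              simp only at this
              omega
        · rfl
      · rw [mul_zero, coeff_zero]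
    · intro h
      exact absurd (Finset.mem_univ _) h

lemma exists_repr_L {d : ℕ} {Q : FA N} (hQ : Q ∈ L N d) :
    ∃ (s : Finset (List (Fin N))) (c : List (Fin N) → ℂ), (∀ w ∈ s, w.length = d) ∧
      Q = ∑ w ∈ s, c w • wd w := by
  classical
  induction hQ using Submodule.span_induction with
  | mem x hx =>
    obtain ⟨w, hw, rfl⟩ := hx
    exact ⟨{w}, fun _ => 1, by simpa using hw, by simp⟩
  | zero => exact ⟨∅, fun _ => 0, by simp, by simp⟩
  | add x y _ _ hx hy =>
    obtain ⟨s, c, h1, rfl⟩ := hx
    obtain ⟨s', c', h1', rfl⟩ := hy
    refine ⟨s ∪ s', fun w => (if w ∈ s then c w else 0) + (if w ∈ s' then c' w else 0), ?_, ?_⟩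
    · intro w hw
      rcases Finset.mem_union.1 hw with h | h
      · exact h1 w h
      · exact h1' w h
    · simp only [add_smul, Finset.sum_add_distrib, ite_smul, zero_smul]
      rw [Finset.sum_ite_mem, Finset.sum_ite_mem, Finset.union_inter_cancel_left,
        Finset.union_inter_cancel_right]
  | smul a x _ hx =>
    obtain ⟨s, c, h1, rfl⟩ := hx
    exact ⟨s, fun w => a * c w, h1, by rw [Finset.smul_sum]; simp only [smul_smul]⟩

/-- There are no polynomial identities of degree less than `2 m` for `m × m` matrices. -/
lemma no_identity {d : ℕ} (hd : d < 2 * m) {Q : FA N} (hQ : Q ∈ L N d) (h : ev N m Q = 0) :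
    Q = 0 := by
  classical
  obtain ⟨s, c, hs, rfl⟩ := exists_repr_L hQ
  apply Finset.sum_eq_zero
  intro w hw
  have hwd := hs w hw
  have h1 := evB_of_ev h
  have h2 : coeff (stm w) (evB N m (∑ w ∈ s, c w • wd w) ⟨0, by omega⟩
      ⟨w.length / 2, by omega⟩) = 0 := by
    rw [h1, Matrix.zero_apply, coeff_zero]
  rw [map_sum, Matrix.sum_apply, coeff_sum, Finset.sum_eq_single w] at h2
  · rw [map_smul, Matrix.smul_apply, coeff_smul, coeff_stair w w (by omega) rfl, if_pos rfl,
      smul_eq_mul, mul_one] at h2
    rw [h2, zero_smul]
  · intro y hy hyw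
    rw [map_smul, Matrix.smul_apply, coeff_smul, coeff_stair w y (by omega)
      (by rw [hs y hy, hwd]), if_neg hyw, smul_zero]
  · intro h3
    exact absurd hw h3

/-- Euler's formula. -/
lemma euler_word (w : List (Fin N)) :
    (∑ i, FreeAlgebra.ι ℂ i * cg w i) - (w.length : ℂ) • wd w ∈ comm (FA N) := by
  have h1 : (∑ i, FreeAlgebra.ι ℂ i * cg w i) = ∑ s ∈ Finset.range w.length, wd (w.rotate s) := by
    simp only [cg, Finset.mul_sum]
    rw [Finset.sum_comm]
    apply Finset.sum_congr rfl
    intro s hs
    have hs' := Finset.mem_range.1 hs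
    rw [Finset.sum_eq_single w[s]]
    · rw [if_pos (List.getElem?_eq_getElem hs'), ← wd_cons, List.rotate_eq_drop_append_take hs'.le,
        ← List.cons_append, List.cons_getElem_drop_succ]
    · intro i _ hi
      rw [if_neg, mul_zero]
      rw [List.getElem?_eq_getElem hs']
      intro h
      exact hi (Option.some.inj h).symm
    · intro h
      exact absurd (Finset.mem_univ _) h
  rw [h1, ← Submodule.Quotient.mk_eq_zero, ← Submodule.mkQ_apply, map_sub, map_sum, map_smul]
  rw [Finset.sum_congr rfl (fun s hs => mkQ_rotate w s (Finset.mem_range.1 hs).le),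
    Finset.sum_const, Finset.card_range, Nat.cast_smul_eq_nsmul, sub_self]

/-- **Detection.**  A homogeneous element of degree `n ≤ 2 m` whose trace vanishes on `m × m`
matrices is a sum of commutators. -/
lemma mem_comm_of_level {n : ℕ} (hn : n ≠ 0) (hnm : n ≤ 2 * m) {Q : FA N} (hQ : Q ∈ L N n)
    (h : tr N m Q = 0) : Q ∈ comm (FA N) := by
  classical
  obtain ⟨s, c, hs, rfl⟩ := exists_repr_L hQ
  have hgrad : ∀ i, (∑ w ∈ s, c w • cg w i) = 0 := by
    intro i
    apply no_identity (m := m) (d := n - 1) (by omega)
    · apply Submodule.sum_mem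
      intro w hw
      apply Submodule.smul_mem
      have := cg_mem_L w i
      rwa [hs w hw] at this
    · refine Matrix.ext fun b a => ?_
      have h1 := congrArg (pderiv (i, a, b)) h
      rw [tr_sum, map_sum, map_zero] at h1
      rw [map_sum, Matrix.sum_apply, Matrix.zero_apply, ← h1]
      apply Finset.sum_congr rfl
      intro w _
      rw [tr_smul, Derivation.map_smul, pderiv_tr_word, map_smul, Matrix.smul_apply]
  have h2 : (∑ w ∈ s, c w • ((∑ i, FreeAlgebra.ι ℂ i * cg w i) - (w.length : ℂ) • wd w)) ∈
      comm (FA N) :=
    Submodule.sum_mem _ fun w _ => Submodule.smul_mem _ _ (euler_word w)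
  have h3 : (∑ w ∈ s, c w • ((∑ i, FreeAlgebra.ι ℂ i * cg w i) - (w.length : ℂ) • wd w)) =
      - ((n : ℂ) • ∑ w ∈ s, c w • wd w) := by
    simp only [smul_sub, Finset.sum_sub_distrib]
    have h4 : (∑ w ∈ s, c w • ∑ i, FreeAlgebra.ι ℂ i * cg w i) = 0 := by
      have : ∀ w, (c w • ∑ i, FreeAlgebra.ι ℂ i * cg w i : FA N) =
          ∑ i, FreeAlgebra.ι ℂ i * (c w • cg w i) := by
        intro w
        rw [Finset.smul_sum]
        exact Finset.sum_congr rfl fun i _ => (mul_smul_comm _ _ _).symm
      rw [Finset.sum_congr rfl (fun w _ => this w), Finset.sum_comm]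
      apply Finset.sum_eq_zero
      intro i _
      rw [← Finset.mul_sum, hgrad, mul_zero]
    rw [h4, zero_sub, Finset.smul_sum, neg_inj]
    apply Finset.sum_congr rfl
    intro w hw
    rw [hs w hw, smul_comm]
  rw [h3] at h2
  have h5 := (Submodule.neg_mem_iff _).1 h2
  have h6 := Submodule.smul_mem _ ((n : ℂ)⁻¹) h5
  rwa [smul_smul, inv_mul_cancel₀ (Nat.cast_ne_zero.2 hn), one_smul] at h6

/-- traces of homogeneous elements are homogeneous polynomials. -/
lemma isHomogeneous_tr {n : ℕ} {Q : FA N} (hQ : Q ∈ L N n) : (tr N m Q).IsHomogeneous n := by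
  have hword : ∀ (w : List (Fin N)) (a b : Fin m), (ev N m (wd w) a b).IsHomogeneous w.length := by
    intro w
    induction w with
    | nil =>
      intro a b
      rw [ev_wd_nil, Matrix.one_apply]
      split_ifs
      · exact isHomogeneous_one _ _
      · exact isHomogeneous_zero _ _ _
    | cons x w ih =>
      intro a b
      rw [ev_wd_cons, Matrix.mul_apply, List.length_cons, add_comm]
      apply IsHomogeneous.sum
      intro c _
      exact (isHomogeneous_X ℂ _).mul (ih c b)
  induction hQ using Submodule.span_induction with
  | mem x hx =>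
    obtain ⟨w, hw, rfl⟩ := hx
    have hw' : w.length = n := hw
    rw [tr, Matrix.trace]
    apply IsHomogeneous.sum
    intro a _
    rw [← hw']
    exact hword w a a
  | zero => rw [tr_zero]; exact isHomogeneous_zero _ _ _
  | add x y _ _ hx hy => rw [tr_add]; exact hx.add hy
  | smul a x _ hx =>
    rw [tr_smul, smul_eq_C_mul]
    have := (isHomogeneous_C (Fin N × Fin m × Fin m) a).mul hx
    rwa [zero_add] at this

end Pool.Agent.H86.Gap
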